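import Mathlib

namespace Pool.Agent.Results.MP_c0f1e3_an.NoRays

open Set

section Defs
variable {𝕜 V : Type} [RCLike 𝕜] [NormedAddCommGroup V] [NormedSpace 𝕜 V]

/-- orbit of `v` under the subsemigroup of `GL(V)` generated by `G`. -/
def orbit (G : Set (V ≃ₗ[𝕜] V)) (v : V) : Set V := {x | ∃ s ∈ Subsemigroup.closure G, x = s v}

/-- the ray spanned by `w`. -/
def ray (𝕜 : Type) {V : Type} [RCLike 𝕜] [NormedAddCommGroup V] [NormedSpace 𝕜 V] (w : V) :
    Set V := {x | ∃ t : ℝ, 0 < t ∧ x = (t : 𝕜) • w}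

/-- `A` is coarsely dense along `Y`. -/
def CoarselyDenseAlong {X : Type} [MetricSpace X] (A Y : Set X) : Prop :=
  ∃ D : ℝ, 0 < D ∧ ∀ y ∈ Y, ∃ a ∈ A, dist y a < D

/-- transvection times a scalar. -/
noncomputable def tv (l : V →ₗ[𝕜] 𝕜) (c : 𝕜) (u : V) (hc : c ≠ 0) (hu : l u = 0) : V ≃ₗ[𝕜] V :=
  LinearEquiv.ofLinear (c • (LinearMap.id + l.smulRight u)) (c⁻¹ • (LinearMap.id - l.smulRight u))
    (by
      ext x
      simp [hu, smul_smul, hc, smul_sub, smul_add, ← mul_assoc])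
    (by
      ext x
      simp [hu, smul_smul, hc, smul_sub, smul_add, ← mul_assoc])

theorem tv_apply (l : V →ₗ[𝕜] 𝕜) (c : 𝕜) (u : V) (hc : c ≠ 0) (hu : l u = 0) (x : V) :
    tv l c u hc hu x = c • (x + l x • u) := by
  simp [tv]

end Defs

theorem disc (F : Set ℝ) (hF : F.Finite) (h1 : ∀ a ∈ F, 1 ≤ a) (n : ℕ) :
    ((AddSubmonoid.closure F : Set ℝ) ∩ Iio (n : ℝ)).Finite := by
  have nn : ∀ x ∈ AddSubmonoid.closure F, (0 : ℝ) ≤ x := by
    intro x hx
    induction hx using AddSubmonoid.closure_induction with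
    | mem a ha => linarith [h1 a ha]
    | zero => exact le_rfl
    | add a b _ _ ha hb => linarith
  induction n with
  | zero =>
    convert Set.finite_empty
    ext x
    simp only [mem_inter_iff, mem_Iio, mem_empty_iff_false, iff_false, not_and, not_lt]
    intro hx
    simpa using nn x hx
  | succ n ih =>
    refine ((Set.finite_singleton (0 : ℝ)).union (hF.image2 (· + ·) ih)).subset ?_
    rintro x ⟨hx, hlt⟩
    induction hx using AddSubmonoid.closure_induction_left with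
    | zero => left; rfl
    | add_left a ha y hy _ =>
      right
      refine ⟨a, ha, y, ⟨hy, ?_⟩, rfl⟩
      have := h1 a ha
      simp only [mem_Iio] at hlt ⊢
      push_cast at hlt
      linarith

theorem no_interval (F : Set ℝ) (hF : F.Finite) (h1 : ∀ a ∈ F, 1 ≤ a) (a e : ℝ) (he : 0 < e) :
    ¬ Ioo a (a + e) ⊆ closure (AddSubmonoid.closure F : Set ℝ) := by
  intro h
  obtain ⟨n, hn⟩ := exists_nat_gt (a + e)
  have hfin := disc F hF h1 n
  refine (Set.Ioo_infinite (show a < a + e by linarith)) (hfin.subset ?_)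
  intro t ht
  have h2 : t ∈ closure (Iio (n : ℝ) ∩ (AddSubmonoid.closure F : Set ℝ)) :=
    isOpen_Iio.inter_closure ⟨lt_trans ht.2 hn, h ht⟩
  rw [inter_comm, hfin.isClosed.closure_eq] at h2
  exact h2

theorem result (𝕜 V : Type) [RCLike 𝕜] [NormedAddCommGroup V] [NormedSpace 𝕜 V]
    [FiniteDimensional 𝕜 V] (hd : 2 ≤ Module.finrank 𝕜 V)
    (W : Set V) (hW : W.Finite) (h0 : ∀ w ∈ W, w ≠ 0) :
    ∃ G : Set (V ≃ₗ[𝕜] V), G.Finite ∧ (∀ g ∈ G, ∀ h ∈ G, g * h = h * g) ∧
      (∃ v, CoarselyDenseAlong (orbit G v) (⋃ w ∈ W, ray 𝕜 w)) ∧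
      ∀ v, interior (closure (orbit G v)) = ∅ := by
  classical
  haveI : Nontrivial V := Module.nontrivial_of_finrank_pos (R := 𝕜) (by omega)
  obtain ⟨w0, hw0⟩ := exists_ne (0 : V)
  haveI : Finite (insert w0 W : Set V) := (hW.insert w0).to_subtype
  obtain ⟨l, hl⟩ := Module.exists_dual_forall_apply_ne_zero (K := 𝕜)
    (fun i : (insert w0 W : Set V) => (i : V)) (by
      rintro ⟨i, rfl | hi⟩
      · exact hw0
      · exact h0 i hi)
  have hlW : ∀ w ∈ W, l w ≠ 0 := fun w hw => hl ⟨w, Or.inr hw⟩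
  have hl0 : l w0 ≠ 0 := hl ⟨w0, Or.inl rfl⟩
  obtain ⟨e0, he0, he0'⟩ : ∃ e : V, l e = 0 ∧ e ≠ 0 := by
    have : LinearMap.ker l ≠ ⊥ := LinearMap.ker_ne_bot_of_finrank_lt (by simp; omega)
    obtain ⟨e, he, hne⟩ := (Submodule.ne_bot_iff _).1 this
    exact ⟨e, he, hne⟩
  obtain ⟨m, hm⟩ := Module.exists_dual_forall_apply_ne_zero (K := 𝕜)
    (fun _ : Unit => e0) (fun _ => he0')
  set e : V := (m e0)⁻¹ • e0 with hedef
  have hle : l e = 0 := by simp [hedef, he0]
  have hme : m e = 1 := by simp [hedef, hm ()]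
  set v1 : V := (l w0)⁻¹ • w0 with hv1
  have hlv1 : l v1 = 1 := by simp [hv1, hl0]
  obtain ⟨B, hB⟩ := (hW.image fun w => RCLike.re (m ((l w)⁻¹ • w - v1))).bddBelow
  set v0 : V := v1 - ((1 - B : ℝ) : 𝕜) • e with hv0
  have hlv0 : l v0 = 1 := by simp [hv0, hlv1, hle]
  set uu : V → V := fun w => (l w)⁻¹ • w - v0 with huu
  have hlu : ∀ w ∈ W, l (uu w) = 0 := by
    intro w hw; simp [huu, hlv0, hlW w hw]
  have hmu : ∀ w ∈ W, 1 ≤ RCLike.re (m (uu w)) := by
    intro w hw
    have := hB ⟨w, hw, rfl⟩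
    have e1 : m (uu w) = m ((l w)⁻¹ • w - v1) + ((1 - B : ℝ) : 𝕜) := by
      simp only [huu, hv0, map_sub, map_smul, hme, smul_eq_mul]; ring
    rw [e1, map_add, RCLike.ofReal_re]
    simp only at this
    linarith
  set F : Set ℝ := (fun w => RCLike.re (m (uu w))) '' W with hFdef
  have hF : F.Finite := hW.image _
  have hF1 : ∀ a ∈ F, 1 ≤ a := by rintro _ ⟨w, hw, rfl⟩; exact hmu w hw
  have hex : ∀ r : ℝ, ((Real.exp r : ℝ) : 𝕜) ≠ 0 := fun r => by
    exact_mod_cast (Real.exp_pos r).ne'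
  set sc : ℝ → (V ≃ₗ[𝕜] V) := fun r => tv l (Real.exp r : ℝ) 0 (hex r) (map_zero l) with hsc
  set gw : W → (V ≃ₗ[𝕜] V) := fun w => tv l (l w) (uu w) (hlW w w.2) (hlu w w.2) with hgw
  haveI : Finite W := hW.to_subtype
  set G : Set (V ≃ₗ[𝕜] V) := sc '' {√2, -√2, 1, -1} ∪ range gw with hG
  have form : ∀ s ∈ Subsemigroup.closure G, ∃ c : 𝕜, ∃ u : V, c ≠ 0 ∧ l u = 0 ∧
      RCLike.re (m u) ∈ AddSubmonoid.closure F ∧ ∀ x, s x = c • (x + l x • u) := by
    intro s hs
    induction hs using Subsemigroup.closure_induction with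
    | mem g hg =>
      rcases hg with ⟨r, -, rfl⟩ | ⟨w, rfl⟩
      · exact ⟨_, 0, hex r, map_zero l, by simp, fun x => tv_apply _ _ _ _ _ x⟩
      · exact ⟨_, uu w, hlW w w.2, hlu w w.2, AddSubmonoid.subset_closure ⟨w, w.2, rfl⟩,
          fun x => tv_apply _ _ _ _ _ x⟩
    | mul g h _ _ hg hh =>
      obtain ⟨c, u, hc, hu, hmu, hx⟩ := hg
      obtain ⟨c', u', hc', hu', hmu', hx'⟩ := hh
      refine ⟨c * c', u + u', mul_ne_zero hc hc', by simp [hu, hu'], ?_, fun x => ?_⟩
      · rw [map_add, map_add]; exact add_mem hmu hmu'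
      · rw [LinearEquiv.mul_apply, hx, hx']
        simp only [map_smul, map_add, hu', smul_eq_mul, mul_zero, add_zero]
        module
  refine ⟨G, ((Set.toFinite _).image _).union (Set.finite_range _), ?_, ⟨v0, 1, one_pos, ?_⟩, ?_⟩
  · intro g hg h hh
    obtain ⟨c, u, -, hu, -, hx⟩ := form g (Subsemigroup.subset_closure hg)
    obtain ⟨c', u', -, hu', -, hx'⟩ := form h (Subsemigroup.subset_closure hh)
    ext x
    rw [LinearEquiv.mul_apply, LinearEquiv.mul_apply, hx, hx', hx', hx]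
    simp only [map_smul, map_add, hu, hu', smul_eq_mul, mul_zero, add_zero]
    module
  · have Q : ∀ r ∈ AddSubgroup.closure ({√2, 1} : Set ℝ),
        (∀ s ∈ Subsemigroup.closure G, ∃ s' ∈ Subsemigroup.closure G,
          ∀ x, s' x = ((Real.exp r : ℝ) : 𝕜) • s x) ∧
        (∀ s ∈ Subsemigroup.closure G, ∃ s' ∈ Subsemigroup.closure G,
          ∀ x, s' x = ((Real.exp (-r) : ℝ) : 𝕜) • s x) := by
      have gen : ∀ r ∈ ({√2, -√2, 1, -1} : Set ℝ), ∀ s ∈ Subsemigroup.closure G,
          ∃ s' ∈ Subsemigroup.closure G, ∀ x, s' x = ((Real.exp r : ℝ) : 𝕜) • s x := by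
        intro r hr s hs
        refine ⟨sc r * s, mul_mem (Subsemigroup.subset_closure (Or.inl ⟨r, hr, rfl⟩)) hs,
          fun x => ?_⟩
        rw [LinearEquiv.mul_apply, hsc]
        simp only [tv_apply, smul_zero, add_zero]
      have add : ∀ a b : ℝ, (∀ s ∈ Subsemigroup.closure G, ∃ s' ∈ Subsemigroup.closure G,
          ∀ x, s' x = ((Real.exp a : ℝ) : 𝕜) • s x) →
          (∀ s ∈ Subsemigroup.closure G, ∃ s' ∈ Subsemigroup.closure G,
          ∀ x, s' x = ((Real.exp b : ℝ) : 𝕜) • s x) →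
          (∀ s ∈ Subsemigroup.closure G, ∃ s' ∈ Subsemigroup.closure G,
          ∀ x, s' x = ((Real.exp (a + b) : ℝ) : 𝕜) • s x) := by
        intro a b ha hb s hs
        obtain ⟨s1, hs1, e1⟩ := hb s hs
        obtain ⟨s2, hs2, e2⟩ := ha s1 hs1
        refine ⟨s2, hs2, fun x => ?_⟩
        rw [e2, e1, Real.exp_add, smul_smul]; push_cast; rfl
      intro r hr
      induction hr using AddSubgroup.closure_induction with
      | mem a ha =>
        rcases ha with rfl | rfl
        · exact ⟨gen _ (by simp), gen _ (by simp)⟩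
        · exact ⟨gen _ (by simp), gen _ (by simp)⟩
      | zero => exact ⟨fun s hs => ⟨s, hs, by simp⟩, fun s hs => ⟨s, hs, by simp⟩⟩
      | add a b _ _ ha hb => exact ⟨add _ _ ha.1 hb.1, by rw [neg_add]; exact add _ _ ha.2 hb.2⟩
      | neg a _ ha => exact ⟨ha.2, by rw [neg_neg]; exact ha.1⟩
    intro y hy
    simp only [mem_iUnion] at hy
    obtain ⟨w, hw, t, ht, rfl⟩ := hy
    have hd : Dense (AddSubgroup.closure ({√2, 1} : Set ℝ) : Set ℝ) :=
      dense_addSubgroupClosure_pair_iff.2 (by simpa using irrational_sqrt_two)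
    have hc : Continuous fun r : ℝ => ((Real.exp r : ℝ) : 𝕜) • w :=
      (RCLike.continuous_ofReal.comp Real.continuous_exp).smul continuous_const
    have hcl := map_mem_closure (t := orbit G v0) hc (hd (Real.log t)) (by
      intro r hr
      obtain ⟨s', hs', e1⟩ := (Q r hr).1 (gw ⟨w, hw⟩)
        (Subsemigroup.subset_closure (Or.inr ⟨_, rfl⟩))
      refine ⟨s', hs', ?_⟩
      rw [e1, hgw]
      simp only [tv_apply, hlv0, one_smul, huu, add_sub_cancel, smul_smul]
      rw [mul_inv_cancel₀ (hlW w hw), mul_one])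
    simp only [Real.exp_log ht] at hcl
    exact Metric.mem_closure_iff.1 hcl 1 one_pos
  · intro v
    by_contra hne
    obtain ⟨y0, hy0⟩ := Set.nonempty_iff_ne_empty.2 hne
    have hlc : Continuous l := l.continuous_of_finiteDimensional
    have hmc : Continuous m := m.continuous_of_finiteDimensional
    set O := interior (closure (orbit G v)) with hO
    have hOo : IsOpen O := isOpen_interior
    have line : ∀ y ∈ O, ∀ d : V, ∃ ε > 0, ∀ t : ℝ, 0 < t → t < ε → y + (t : 𝕜) • d ∈ O := by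
      intro y hy d
      have hc : Continuous fun t : ℝ => y + (t : 𝕜) • d :=
        continuous_const.add (RCLike.continuous_ofReal.smul continuous_const)
      obtain ⟨ε, hε, hb⟩ := Metric.isOpen_iff.1 (hOo.preimage hc) 0 (by simpa using hy)
      refine ⟨ε, hε, fun t h1 h2 => hb ?_⟩
      simp [abs_of_pos h1, h2]
    obtain ⟨y, hy, hly⟩ : ∃ y ∈ O, l y ≠ 0 := by
      by_cases h : l y0 = 0
      · obtain ⟨ε, hε, hb⟩ := line y0 hy0 v1
        refine ⟨_, hb (ε / 2) (by linarith) (by linarith), ?_⟩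
        simp [h, hlv1, hε.ne']
      · exact ⟨y0, hy0, h⟩
    set φ : V → ℝ := fun x => RCLike.re (m x / l x) - RCLike.re (m v / l v) with hφ
    have key : ∀ z ∈ O, l z ≠ 0 → φ z ∈ closure (AddSubmonoid.closure F : Set ℝ) := by
      intro z hz hlz
      have h1 : z ∈ closure ({x | l x ≠ 0} ∩ orbit G v) :=
        (isOpen_ne_fun hlc continuous_const).inter_closure ⟨hlz, interior_subset hz⟩
      have h2 : ContinuousAt φ z :=
        (RCLike.continuous_re.continuousAt.comp
          (hmc.continuousAt.div hlc.continuousAt hlz)).sub continuousAt_const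
      refine closure_mono ?_ (h2.continuousWithinAt.mem_closure_image h1)
      rintro _ ⟨x, ⟨hlx, s, hs, rfl⟩, rfl⟩
      obtain ⟨c, u, hc, hu, hmu, hx⟩ := form s hs
      have e1 : l (s v) = c * l v := by
        rw [hx]; simp only [map_smul, map_add, smul_eq_mul, hu, mul_zero, add_zero]
      have e2 : m (s v) = c * (m v + l v * m u) := by
        rw [hx]; simp only [map_smul, map_add, smul_eq_mul]
      have hlv : l v ≠ 0 := by
        intro h; apply hlx; rw [e1, h, mul_zero]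
      have e3 : m (s v) / l (s v) = m v / l v + m u := by
        rw [e1, e2, mul_div_mul_left _ _ hc, add_div, mul_div_cancel_left₀ _ hlv]
      simp only [hφ, e3, map_add, add_sub_cancel_left]
      exact hmu
    obtain ⟨ε, hε, hb⟩ := line y hy (l y • e)
    refine no_interval F hF hF1 (φ y) ε hε ?_
    intro a ha
    have h1 := hb (a - φ y) (by linarith [ha.1]) (by linarith [ha.2])
    have e1 : ∀ t : ℝ, l (y + (t : 𝕜) • l y • e) = l y := by
      intro t; simp [hle]
    have h2 := key _ h1 (by rw [e1]; exact hly)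
    have e2 : ∀ t : ℝ, φ (y + (t : 𝕜) • l y • e) = φ y + t := by
      intro t
      have e3 : m (y + (t : 𝕜) • l y • e) / l (y + (t : 𝕜) • l y • e) = m y / l y + t := by
        rw [e1]; simp only [map_add, map_smul, hme, smul_eq_mul, mul_one]
        rw [add_div, mul_div_cancel_right₀ _ hly]
      show RCLike.re (m (y + (t : 𝕜) • l y • e) / l (y + (t : 𝕜) • l y • e)) - _ = _
      rw [e3]
      simp only [hφ, map_add, RCLike.ofReal_re]
      ring
    rw [e2] at h2
    simpa using h2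

end Pool.Agent.Results.MP_c0f1e3_an.NoRays
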